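import Pool.Agent.Q33.SB.Main
import Pool.Agent.Q33.SB.Spl
import Pool.Agent.Q151.SB.Gen
import Pool.Agent.Q151.SB.Fld
import Pool.Agent.Q151.SB.Dom
import Pool.Agent.Q151.SB.Lin
import Pool.Agent.Q125.SB.Ari
import Pool.Agent.Q125.SB.Adp
import Pool.Agent.Q47.SB.Smo
import Pool.Agent.Q47.SB.Sch
import Pool.Agent.Q47.SB.Non
import Pool.Agent.Q47.SB.Pui
import Pool.Agent.Q195.SB.Fix
import Pool.Agent.Q195.SB.Nun
import Pool.Agent.Q224.SB.Azu
import Pool.Agent.Q224.SB.Nsp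
import Pool.Agent.Q241.SB.Nmi

/-!
# A variety with the splitting condition, adelic points and empty Brauer-Manin set (MP_ad201b_nt)

`X = Spec CoordRing` is the affine curve `w² = u⁴ + 1`, `u ≠ 0` over `ℚ`: the elliptic curve
`w² = u⁴ + 1` without its four rational points.  It satisfies the splitting condition, has adelic
points, and its Brauer-Manin set is empty: for every adelic point there is an Azumaya algebra on `X`
whose fibres at the point are split at all places except one.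
-/

set_option autoImplicit false

open scoped TensorProduct

namespace Pool.Agent.Results.MP_ad201b_nt.OpenEllipticCurve

open Pool.Agent.Q33.SB

theorem result :
    (Algebra.FiniteType ℚ CoordRing ∧ Algebra.Smooth ℚ CoordRing ∧
      ∀ (K : Type) [Field K] [Algebra ℚ K], IsDomain (CoordRing ⊗[ℚ] K)) ∧
    SplittingCondition CoordRing ∧
    Nonempty AdelicPoint ∧
    (∀ P : AdelicPoint, ∃ (B : Type) (_ : Ring B) (_ : Algebra CoordRing B) (p : ℕ)
      (_ : Fact p.Prime), IsAzumaya CoordRing B ∧ ¬ Split ℚ_[p] (P.fin p) B ∧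
      (∀ (q : ℕ) [Fact q.Prime], q ≠ p → Split ℚ_[q] (P.fin q) B) ∧ Split ℝ P.inf B) ∧
    ∀ (iv : ∀ (p : ℕ) [Fact p.Prime], Pool.Agent.Q33.SB.Inv ℚ_[p])
      (ir : Pool.Agent.Q33.SB.Inv ℝ), BrauerManinSet iv ir = ∅ := by
  have hP := exists_azumaya Pool.Agent.Q151.SB.t_LIN Pool.Agent.Q224.SB.t_AZU t_SPL
    Pool.Agent.Q224.SB.t_NSP Pool.Agent.Q151.SB.t_GEN Pool.Agent.Q195.SB.t_NUN
    Pool.Agent.Q241.SB.t_NMI Pool.Agent.Q47.SB.t_NON Pool.Agent.Q151.SB.t_FLD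
    Pool.Agent.Q125.SB.t_ARI Pool.Agent.Q151.SB.t_DOM
  have hdom : IsDomain CoordRing := Pool.Agent.Q151.SB.t_DOM.2.1
  exact ⟨⟨Pool.Agent.Q151.SB.t_DOM.1, Pool.Agent.Q47.SB.t_SMO, Pool.Agent.Q151.SB.t_DOM.2.2⟩,
    Pool.Agent.Q47.SB.t_SCH Pool.Agent.Q195.SB.t_FIX CoordRing Pool.Agent.Q47.SB.t_PUI,
    Pool.Agent.Q125.SB.t_ADP, hP, fun iv ir => brauerManinSet_empty hP iv ir⟩

end Pool.Agent.Results.MP_ad201b_nt.OpenEllipticCurve
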